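import Pool.Agent.K1H73.DY.Stm
import Pool.Agent.Y213.EC.Dens

set_option autoImplicit false

/-! The density of the primes with a local root, from Chebotarev's theorem. -/

namespace Pool.Agent.K1H16.DY

open Polynomial NumberField Pool.Agent.K1H73.DY Pool.Agent.W401.Cheb

section core

variable {M : Type} [Field M] [NumberField M]

omit [NumberField M] in
/-- the roots times the leading coefficient -/
theorem exists_beta (Ψ : ℤ[X]) : ∃ β : M → 𝓞 M, ∀ α : M, aeval α Ψ = 0 →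
    (β α : M) = (Ψ.leadingCoeff : M) * α := by
  classical
  have h : ∀ α : M, ∃ b : 𝓞 M, aeval α Ψ = 0 → (b : M) = (Ψ.leadingCoeff : M) * α := by
    intro α
    by_cases h0 : aeval α Ψ = 0
    · have h1 := isIntegral_leadingCoeff_smul Ψ α h0
      refine ⟨⟨Ψ.leadingCoeff • α, h1⟩, fun _ => ?_⟩
      show Ψ.leadingCoeff • α = _
      rw [zsmul_eq_mul]
    · exact ⟨0, fun h => absurd h h0⟩
  choose β hβ using h
  exact ⟨β, hβ⟩

theorem factor (Ψ : ℤ[X]) (hs : (Ψ.map (Int.castRingHom M)).Splits) (β : M → 𝓞 M)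
    (hΨ : Ψ ≠ 0) (hβ : ∀ α : M, aeval α Ψ = 0 → (β α : M) = (Ψ.leadingCoeff : M) * α) :
    (C (Ψ.leadingCoeff : 𝓞 M)) ^ (Ψ.map (Int.castRingHom M)).roots.card *
        Ψ.map (Int.castRingHom (𝓞 M)) =
      C (Ψ.leadingCoeff : 𝓞 M) * ((Ψ.map (Int.castRingHom M)).roots.map fun α =>
        C (Ψ.leadingCoeff : 𝓞 M) * X - C (β α)).prod := by
  have hinj : Function.Injective (algebraMap (𝓞 M) M) := RingOfIntegers.coe_injective
  apply Polynomial.map_injective (algebraMap (𝓞 M) M) hinj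
  have h1 : (Ψ.map (Int.castRingHom (𝓞 M))).map (algebraMap (𝓞 M) M) =
      Ψ.map (Int.castRingHom M) := by
    rw [Polynomial.map_map]
    exact congrArg (fun f => Ψ.map f) (RingHom.ext_int _ _)
  have hcast : Function.Injective (Int.castRingHom M) := Int.cast_injective
  have hroot : ∀ α ∈ (Ψ.map (Int.castRingHom M)).roots, aeval α Ψ = 0 := by
    intro α hα
    have h2 := (mem_roots'.1 hα).2
    rw [IsRoot.def, eval_map] at h2
    rw [aeval_def]
    exact h2
  rw [Polynomial.map_mul, Polynomial.map_pow, Polynomial.map_mul, h1, map_C, map_intCast,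
    Polynomial.map_multiset_prod, Multiset.map_map]
  have h2 : ((Ψ.map (Int.castRingHom M)).roots.map
      ((Polynomial.map (algebraMap (𝓞 M) M)) ∘ fun α =>
        C (Ψ.leadingCoeff : 𝓞 M) * X - C (β α))) =
      (Ψ.map (Int.castRingHom M)).roots.map fun α => C (Ψ.leadingCoeff : M) * (X - C α) := by
    apply Multiset.map_congr rfl
    intro α hα
    have : algebraMap (𝓞 M) M (β α) = (Ψ.leadingCoeff : M) * α := hβ α (hroot α hα)
    show Polynomial.map (algebraMap (𝓞 M) M) (C (Ψ.leadingCoeff : 𝓞 M) * X - C (β α)) = _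
    rw [Polynomial.map_sub, Polynomial.map_mul, map_C, map_X, map_C, map_intCast, this, C_mul]
    ring
  rw [h2, Multiset.prod_map_mul, Multiset.map_const', Multiset.prod_replicate]
  have h3 := hs.eq_prod_roots
  rw [leadingCoeff_map_of_injective hcast] at h3
  have h4 : (Int.castRingHom M) Ψ.leadingCoeff = (Ψ.leadingCoeff : M) := rfl
  rw [h4] at h3
  exact (congrArg (fun q => C (Ψ.leadingCoeff : M) ^
    (Ψ.map (Int.castRingHom M)).roots.card * q) h3).trans (by ring)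

theorem core [IsGalois ℚ M] (g : Gal(M/ℚ)) (Ψ : ℤ[X]) (hΨ : Ψ ≠ 0)
    (hs : (Ψ.map (Int.castRingHom M)).Splits) (hg : ∀ x : M, aeval x Ψ = 0 → g x ≠ x) :
    ∃ B : ℕ, ∀ (p : ℕ) [Fact p.Prime], B ≤ p → ∀ φ : 𝓞 M →+* AlgebraicClosure (ZMod p),
      HasFrob p φ g → ∀ x : ℚ_[p], aeval x Ψ ≠ 0 := by
  classical
  obtain ⟨β, hβ⟩ := exists_beta (M := M) Ψ
  set a : ℤ := Ψ.leadingCoeff with ha
  have ha0 : a ≠ 0 := leadingCoeff_ne_zero.2 hΨ
  set S := (Ψ.map (Int.castRingHom M)).roots with hS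
  have hfac := factor Ψ hs β hΨ hβ
  let ν : M → ℕ := fun α => Ideal.absNorm (Ideal.span {g • β α - β α})
  refine ⟨1 + a.natAbs + ∑ α ∈ S.toFinset, ν α, ?_⟩
  intro p hp hB φ hφ x hx
  have hroot : ∀ α ∈ S, aeval α Ψ = 0 := by
    intro α hα
    have h2 := (mem_roots'.1 hα).2
    rw [IsRoot.def, eval_map] at h2
    rw [aeval_def]
    exact h2
  -- `p` does not divide `a`
  have hpa : ¬ (p : ℤ) ∣ a := by
    intro hdvd
    have h1 := Int.le_of_dvd (a := (p : ℤ)) (b := |a|) (abs_pos.2 ha0) ((dvd_abs _ _).2 hdvd)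
    rw [Int.abs_eq_natAbs] at h1
    have : p ≤ a.natAbs := by exact_mod_cast h1
    omega
  -- `x` is a `p`-adic integer
  have hxint : ∃ y : ℤ_[p], (y : ℚ_[p]) = x := by
    have h1 : IsIntegral ℤ (a • x) := isIntegral_leadingCoeff_smul Ψ x hx
    have h2 : IsIntegral ℤ_[p] (a • x) := h1.tower_top
    obtain ⟨z, hz⟩ := IsIntegrallyClosed.isIntegral_iff.1 h2
    have h3 : ‖(a : ℚ_[p])‖ = 1 := by
      apply le_antisymm (Padic.norm_int_le_one a)
      by_contra hlt
      push Not at hlt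
      exact hpa (Padic.norm_intCast_lt_one_iff.1 hlt)
    have h4 : ‖x‖ ≤ 1 := by
      have h5 : ‖(z : ℚ_[p])‖ ≤ 1 := z.2
      have h6 : (z : ℚ_[p]) = a * x := by
        have : (z : ℚ_[p]) = a • x := hz
        rw [this, zsmul_eq_mul]
      rw [h6, norm_mul, h3, one_mul] at h5
      exact h5
    exact ⟨⟨x, h4⟩, rfl⟩
  obtain ⟨y, rfl⟩ := hxint
  have hy : aeval y Ψ = 0 := by
    have h1 : algebraMap ℤ_[p] ℚ_[p] (aeval y Ψ) = 0 := by
      rw [← aeval_algebraMap_apply]
      exact hx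
    exact (map_eq_zero_iff _ (IsFractionRing.injective ℤ_[p] ℚ_[p])).1 h1
  -- the residue
  let κ : ℤ_[p] →+* AlgebraicClosure (ZMod p) :=
    (algebraMap (ZMod p) (AlgebraicClosure (ZMod p))).comp PadicInt.toZMod
  set w := κ y with hw
  have hwp : w ^ p = w := by
    show (algebraMap (ZMod p) (AlgebraicClosure (ZMod p)) (PadicInt.toZMod y)) ^ p = _
    rw [← map_pow, ZMod.pow_card]
    rfl
  have hw0 : eval₂ (Int.castRingHom (AlgebraicClosure (ZMod p))) w Ψ = 0 := by
    have h1 : κ (aeval y Ψ) = 0 := by rw [hy, map_zero]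
    rw [aeval_def, hom_eval₂] at h1
    rw [← h1]
    congr 1
    exact RingHom.ext_int _ _
  -- evaluate the factorisation
  have hev := congrArg (eval₂ φ w) hfac
  have hphi : φ.comp (Int.castRingHom (𝓞 M)) = Int.castRingHom (AlgebraicClosure (ZMod p)) :=
    RingHom.ext_int _ _
  rw [eval₂_mul, eval₂_map, hphi, hw0, mul_zero, eval₂_mul, eval₂_C, map_intCast] at hev
  have hchar : CharP (AlgebraicClosure (ZMod p)) p := inferInstance
  have ha' : ((a : ℤ) : AlgebraicClosure (ZMod p)) ≠ 0 := by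
    intro h0
    exact hpa ((CharP.intCast_eq_zero_iff _ p a).1 h0)
  have hprod := (mul_eq_zero.1 hev.symm).resolve_left ha'
  rw [← coe_eval₂RingHom, map_multiset_prod, Multiset.map_map, Multiset.prod_eq_zero_iff,
    Multiset.mem_map] at hprod
  obtain ⟨α, hα, h0⟩ := hprod
  change eval₂ φ w (C (a : 𝓞 M) * X - C (β α)) = 0 at h0
  rw [eval₂_sub, eval₂_mul, eval₂_C, eval₂_X, eval₂_C, map_intCast] at h0
  have h1 : φ (β α) = (a : AlgebraicClosure (ZMod p)) * w := (sub_eq_zero.1 h0).symm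
  have hap : ((a : ℤ) : AlgebraicClosure (ZMod p)) ^ p = a := by
    have : ((a : ℤ) : AlgebraicClosure (ZMod p)) =
        algebraMap (ZMod p) (AlgebraicClosure (ZMod p)) (a : ZMod p) := by
      rw [map_intCast]
    rw [this, ← map_pow, ZMod.pow_card]
  have h2 : φ (g • β α - β α) = 0 := by
    rw [map_sub, hφ (β α), h1, mul_pow, hap, hwp, sub_self]
  -- contradiction
  have hne : g • β α - β α ≠ 0 := by
    intro h3
    have h4 : g • β α = β α := sub_eq_zero.1 h3
    have h5 : g ((β α : M)) = (β α : M) := by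
      have := congrArg (algebraMap (𝓞 M) M) h4
      exact this
    rw [hβ α (hroot α hα), map_mul, map_intCast] at h5
    have h6 : ((a : ℤ) : M) ≠ 0 := by exact_mod_cast ha0
    exact hg α (hroot α hα) (mul_left_cancel₀ h6 h5)
  have hν0 : ν α ≠ 0 := by
    intro h3
    apply hne
    have := Ideal.absNorm_eq_zero_iff.1 h3
    exact Ideal.span_singleton_eq_bot.1 this
  have hmem : ((ν α : ℕ) : 𝓞 M) ∈ Ideal.span {g • β α - β α} := Ideal.absNorm_mem _
  obtain ⟨c, hc⟩ := Ideal.mem_span_singleton.1 hmem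
  have h7 : ((ν α : ℕ) : AlgebraicClosure (ZMod p)) = 0 := by
    have := congrArg φ hc
    rw [map_natCast, map_mul, h2, zero_mul] at this
    exact this
  have h8 : p ∣ ν α := (CharP.cast_eq_zero_iff _ p _).1 h7
  have h9 : p ≤ ν α := Nat.le_of_dvd (Nat.pos_of_ne_zero hν0) h8
  have h10 : ν α ≤ ∑ α ∈ S.toFinset, ν α :=
    Finset.single_le_sum (f := ν) (fun _ _ => Nat.zero_le _) (Multiset.mem_toFinset.2 hα)
  omega

end core

theorem pc_eq (N : ℕ) : ({p : ℕ | p ≤ N ∧ p.Prime} : Set ℕ).ncard = Nat.primeCounting N := by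
  classical
  have h1 : ({p : ℕ | p ≤ N ∧ p.Prime} : Set ℕ) = ((Finset.range (N + 1)).filter Nat.Prime : Finset ℕ) := by
    ext p
    simp
  rw [h1, Set.ncard_coe_finset, Nat.primeCounting, Nat.primeCounting',
    Nat.count_eq_card_filter_range]

theorem t_G2 : S_G2 := by
  classical
  intro Φ hΦ M _ _ _ g hs hg
  obtain ⟨b, hb, hmap⟩ := IsLocalization.integerNormalization_spec (nonZeroDivisors ℤ) Φ
  set Ψ := IsLocalization.integerNormalization (nonZeroDivisors ℤ) Φ with hΨ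
  have hb0 : (b : ℚ) ≠ 0 := by
    have := nonZeroDivisors.ne_zero hb
    exact_mod_cast this
  have hmap' : Ψ.map (algebraMap ℤ ℚ) = C (b : ℚ) * Φ := by
    rw [hmap, ← smul_eq_C_mul, Int.cast_smul_eq_zsmul]
  have hΨ0 : Ψ ≠ 0 := by
    intro h0
    rw [h0, Polynomial.map_zero] at hmap'
    have := mul_eq_zero.1 hmap'.symm
    rcases this with h | h
    · exact hb0 (C_eq_zero.1 h)
    · exact hΦ h
  have haev : ∀ (K : Type) [Field K] [CharZero K] (x : K), aeval x Ψ = 0 ↔ aeval x Φ = 0 := by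
    intro K _ _ x
    have h1 : aeval x (Ψ.map (algebraMap ℤ ℚ)) = aeval x Ψ := aeval_map_algebraMap ℚ x Ψ
    rw [← h1, hmap', map_mul, aeval_C, mul_eq_zero]
    constructor
    · rintro (h | h)
      · exact absurd ((map_eq_zero_iff _ (algebraMap ℚ K).injective).1 h) hb0
      · exact h
    · exact Or.inr
  have hsΨ : (Ψ.map (Int.castRingHom M)).Splits := by
    have h1 : Ψ.map (Int.castRingHom M) = C (algebraMap ℚ M b) * Φ.map (algebraMap ℚ M) := by
      rw [← map_C, ← Polynomial.map_mul, ← hmap', Polynomial.map_map]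
      congr 1
      exact RingHom.ext_int _ _
    rw [h1]
    exact hs.C_mul _
  obtain ⟨B, hB⟩ := core g Ψ hΨ0 hsΨ (fun x hx => hg x ((haev M x).1 hx))
  obtain ⟨N₀, hN₀⟩ := Pool.Agent.Y213.EC.many_primes M {g} (Finset.singleton_nonempty g) B
  have hG : (0 : ℝ) < Nat.card Gal(M/ℚ) := by exact_mod_cast Nat.card_pos
  refine ⟨1 - 1 / (2 * Nat.card Gal(M/ℚ)), ?_, N₀, ?_⟩
  · have : (0 : ℝ) < 1 / (2 * Nat.card Gal(M/ℚ)) := by positivity
    linarith
  intro N hN
  obtain ⟨T, hT1, hT2⟩ := hN₀ N hN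
  rw [pc_eq]
  rw [Finset.card_singleton, Nat.cast_one, one_mul] at hT2
  have hfin : ({p : ℕ | p ≤ N ∧ p.Prime} : Set ℕ).Finite :=
    (Set.finite_Iic N).subset fun p hp => hp.1
  have hdisj : Disjoint ({p : ℕ | p ≤ N ∧ p.Prime ∧ LocRoot p Φ} : Set ℕ) (T : Set ℕ) := by
    rw [Set.disjoint_left]
    rintro p ⟨-, -, hfact, x, hx⟩ hpT
    obtain ⟨-, hBp, hpp, g', hg', hxp⟩ := hT1 p hpT
    rw [Finset.mem_singleton] at hg'
    subst hg'
    have hne : Nonempty {φ : 𝓞 M →+* AlgebraicClosure (ZMod p) // HasFrob p φ g'} := by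
      by_contra hem
      apply hxp
      unfold xp
      rw [dif_pos hpp]
      have : IsEmpty {φ : 𝓞 M →+* AlgebraicClosure (ZMod p) // HasFrob p φ g'} :=
        not_nonempty_iff.1 hem
      exact Nat.card_of_isEmpty
    obtain ⟨φ, hφ⟩ := hne
    exact hB p hBp φ hφ x ((haev ℚ_[p] x).2 hx)
  have hsub : ({p : ℕ | p ≤ N ∧ p.Prime ∧ LocRoot p Φ} : Set ℕ) ∪ (T : Set ℕ) ⊆
      {p : ℕ | p ≤ N ∧ p.Prime} := by
    rintro p (hp | hp)
    · exact ⟨hp.1, hp.2.1⟩
    · obtain ⟨h1, -, h2, -⟩ := hT1 p hp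
      exact ⟨h1, h2⟩
  have hcard := Set.ncard_le_ncard hsub hfin
  rw [Set.ncard_union_eq hdisj (hfin.subset (Set.subset_union_left.trans hsub))
    (T.finite_toSet), Set.ncard_coe_finset, pc_eq] at hcard
  have hcard' : (({p : ℕ | p ≤ N ∧ p.Prime ∧ LocRoot p Φ} : Set ℕ).ncard : ℝ) + T.card ≤
      Nat.primeCounting N := by exact_mod_cast hcard
  rcases Nat.eq_zero_or_pos (Nat.primeCounting N) with h0 | h0
  · rw [h0, Nat.cast_zero, div_zero]
    have h1 : (1 : ℝ) ≤ Nat.card Gal(M/ℚ) := by exact_mod_cast Nat.card_pos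
    have h2 : (1 : ℝ) / (2 * Nat.card Gal(M/ℚ)) ≤ 1 := by
      rw [div_le_one (by positivity)]
      linarith
    linarith
  · have h0' : (0 : ℝ) < Nat.primeCounting N := by exact_mod_cast h0
    rw [div_le_iff₀ h0', sub_mul, one_mul]
    have h3 : (1 : ℝ) / (2 * Nat.card Gal(M/ℚ)) * Nat.primeCounting N ≤ T.card := by
      rw [div_mul_eq_mul_div, one_mul, div_le_iff₀ (by positivity)]
      linarith
    linarith

end Pool.Agent.K1H16.DY
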