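import Pool.Agent.K1H73.DY.Stm
import Pool.Agent.W999.HB.TP
import Pool.Agent.R940.Slope

set_option autoImplicit false

/-! Residues, square roots and escape in the closure of the field of `p`-adic numbers. -/

namespace Pool.Agent.K1H16.DY

open Polynomial Pool.Agent.K1H73.DY

theorem t_SW : S_SW := by
  intro p _ c hc δ hδ
  have hirr : Irreducible (X ^ 2 - C c : ℚ_[p][X]) := by
    apply X_pow_sub_C_irreducible_of_prime Nat.prime_two
    intro b hb
    exact hc ⟨b, by rw [← hb, pow_two]⟩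
  have hmon : (X ^ 2 - C c : ℚ_[p][X]).Monic := monic_X_pow_sub_C c two_ne_zero
  have h1 : aeval δ (X ^ 2 - C c : ℚ_[p][X]) = 0 := by
    rw [map_sub, map_pow, aeval_X, aeval_C, hδ, sub_self]
  have h2 : aeval (-δ) (X ^ 2 - C c : ℚ_[p][X]) = 0 := by
    rw [map_sub, map_pow, aeval_X, aeval_C, neg_sq, hδ, sub_self]
  have h3 := minpoly.eq_of_irreducible_of_monic hirr h1 hmon
  have h4 := minpoly.eq_of_irreducible_of_monic hirr h2 hmon
  have h5 : IsConjRoot ℚ_[p] (-δ) δ := by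
    show minpoly ℚ_[p] (-δ) = minpoly ℚ_[p] δ
    rw [← h3, ← h4]
  exact isConjRoot_iff_exists_algEquiv.1 h5

theorem t_ESC : S_ESC := by
  intro p _ c hc hsq
  obtain ⟨δ, hδ⟩ := IsAlgClosed.exists_pow_nat_eq (algebraMap ℚ_[p] (PadicAlgCl p) (1 - 4 * c))
    (n := 2) (by norm_num)
  obtain ⟨τ, hτ⟩ := t_SW p (1 - 4 * c) hsq δ hδ
  refine ⟨τ, ?_⟩
  set γ := algebraMap ℚ_[p] (PadicAlgCl p) c with hγ
  have hδ' : δ ^ 2 = 1 - 4 * γ := by
    rw [hδ, map_sub, map_mul, map_one]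
    norm_num
    rfl
  have hτγ : τ γ = γ := τ.commutes c
  set b₁ := (1 + δ) / 2 with hb1
  set b₂ := (1 - δ) / 2 with hb2
  have hb1f : b₁ ^ 2 + γ = b₁ := by
    rw [hb1]
    have : γ = (1 - δ ^ 2) / 4 := by rw [hδ']; ring
    rw [this]; ring
  have hτb : τ b₁ = b₂ := by
    rw [hb1, hb2, map_div₀, map_add, map_one, hτ, map_ofNat]
    ring
  -- the norm of `δ`
  have hnγ : 1 < ‖4 * γ‖ := by
    have : 4 * γ = algebraMap ℚ_[p] (PadicAlgCl p) (4 * c) := by
      rw [map_mul, map_ofNat]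
    rw [this, PadicAlgCl.norm_extends]
    exact hc
  have hnδ : 1 < ‖δ‖ := by
    have h1 : ‖δ ^ 2‖ = ‖4 * γ‖ := by
      rw [hδ', sub_eq_add_neg, IsUltrametricDist.norm_add_eq_max_of_norm_ne_norm, norm_neg, norm_one,
        max_eq_right hnγ.le]
      rw [norm_neg, norm_one]
      exact hnγ.ne
    rw [norm_pow] at h1
    by_contra h2
    push Not at h2
    have h3 : ‖δ‖ ^ 2 ≤ 1 := pow_le_one₀ (norm_nonneg _) h2
    linarith
  -- one step
  have step : ∀ x : PadicAlgCl p, τ x = x → 1 < ‖x - b₁‖ ∧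
      ‖x ^ 2 + γ - b₁‖ = ‖x - b₁‖ ^ 2 ∧ τ (x ^ 2 + γ) = x ^ 2 + γ := by
    intro x hx
    have h1 : ‖x - b₂‖ = ‖x - b₁‖ := by
      rw [← hτb]
      conv_lhs => rw [← hx]
      rw [← map_sub, Pool.Agent.R940.norm_gal]
    have h2 : ‖δ‖ ≤ ‖x - b₁‖ := by
      have h3 : δ = (x - b₂) + -(x - b₁) := by rw [hb1, hb2]; ring
      have h4 := IsUltrametricDist.norm_add_le_max (x - b₂) (-(x - b₁))
      rw [← h3, norm_neg, h1, max_self] at h4
      exact h4
    have h5 : 1 < ‖x - b₁‖ := lt_of_lt_of_le hnδ h2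
    have h6 : ‖x + b₁‖ = ‖x - b₁‖ := by
      have h7 : x + b₁ = (x - b₂) + 1 := by rw [hb1, hb2]; ring
      rw [h7, IsUltrametricDist.norm_add_eq_max_of_norm_ne_norm, h1, norm_one, max_eq_left h5.le]
      rw [h1, norm_one]
      exact h5.ne'
    refine ⟨h5, ?_, ?_⟩
    · have h8 : x ^ 2 + γ - b₁ = (x - b₁) * (x + b₁) := by
        have : γ = b₁ - b₁ ^ 2 := by
          have := hb1f
          linear_combination this
        rw [this]; ring
      rw [h8, norm_mul, h6, pow_two]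
    · rw [map_add, map_pow, hx, hτγ]
  intro x hx
  have key : ∀ n : ℕ, τ ((fun z => z ^ 2 + γ)^[n] x) = (fun z => z ^ 2 + γ)^[n] x ∧
      ‖x - b₁‖ ≤ ‖(fun z => z ^ 2 + γ)^[n] x - b₁‖ ∧
      (1 ≤ n → ‖x - b₁‖ < ‖(fun z => z ^ 2 + γ)^[n] x - b₁‖) := by
    intro n
    induction n with
    | zero => exact ⟨hx, le_rfl, fun h => absurd h (by norm_num)⟩
    | succ n ih =>
      obtain ⟨h1, h2, -⟩ := ih
      obtain ⟨h3, h4, h5⟩ := step _ h1
      rw [Function.iterate_succ_apply']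
      have h6 : ‖(fun z => z ^ 2 + γ)^[n] x - b₁‖ < ‖((fun z => z ^ 2 + γ)^[n] x) ^ 2 + γ - b₁‖ := by
        rw [h4]
        nlinarith
      exact ⟨h5, (h2.trans_lt h6).le, fun _ => h2.trans_lt h6⟩
  intro n hn heq
  have := (key n).2.2 hn
  rw [heq] at this
  exact lt_irrefl _ this

theorem fin_res {k : Type} [Field k] (p : ℕ) [Fact p.Prime] [Algebra (ZMod p) k] (y : k)
    (hyint : IsIntegral (ZMod p) y) : ∃ d : ℕ, 1 ≤ d ∧ y ^ (p ^ d) = y := by
  classical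
  let F := IntermediateField.adjoin (ZMod p) {y}
  have hfd : FiniteDimensional (ZMod p) F := IntermediateField.adjoin.finiteDimensional hyint
  have hfin : Finite F := Module.finite_of_finite (ZMod p)
  have : Fintype F := Fintype.ofFinite F
  have hcard : Fintype.card F = p ^ Module.finrank (ZMod p) F := by
    have := Module.card_eq_pow_finrank (K := ZMod p) (V := F)
    rw [ZMod.card] at this
    exact this
  refine ⟨Module.finrank (ZMod p) F, Module.finrank_pos, ?_⟩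
  have h1 := FiniteField.pow_card (⟨y, IntermediateField.mem_adjoin_simple_self _ _⟩ : F)
  rw [hcard] at h1
  have := congrArg (algebraMap F k) h1
  rw [map_pow] at this
  exact this

theorem rho_eq {k : Type} [Field k] (p : ℕ) [Fact p.Prime] [Algebra (ZMod p) k]
    (ρ : ℤ_[p] →+* k) (h : ∀ a : ℤ_[p], ‖a‖ < 1 → ρ a = 0) :
    ρ = (algebraMap (ZMod p) k).comp PadicInt.toZMod := by
  ext a
  have h1 := PadicInt.toZMod_spec a
  rw [IsLocalRing.mem_maximalIdeal, PadicInt.mem_nonunits] at h1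
  have h2 := h _ h1
  rw [map_sub, sub_eq_zero] at h2
  have h3 : ((PadicInt.toZMod a).cast : ℤ_[p]) = ((PadicInt.toZMod a).val : ℤ_[p]) := by
    rw [ZMod.natCast_val]
  rw [h2, h3, map_natCast]
  show ((PadicInt.toZMod a).val : k) = algebraMap (ZMod p) k (PadicInt.toZMod a)
  conv_rhs => rw [← ZMod.natCast_zmod_val (PadicInt.toZMod a)]
  rw [map_natCast]

theorem exists_int {p : ℕ} [Fact p.Prime] (x : PadicAlgCl p) (hx : ‖x‖ ≤ 1) :
    ∃ Q : ℤ_[p][X], Q.Monic ∧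
      eval₂ ((algebraMap ℚ_[p] (PadicAlgCl p)).comp (algebraMap ℤ_[p] ℚ_[p])) x Q = 0 := by
  have hint : IsIntegral ℚ_[p] x := Algebra.IsIntegral.isIntegral x
  have hmon := minpoly.monic hint
  have hcoef : ∀ n, ‖(minpoly ℚ_[p] x).coeff n‖ ≤ 1 := by
    rw [← spectralValue_le_one_iff hmon]
    have := PadicAlgCl.spectralNorm_eq p x
    unfold spectralNorm at this
    rw [this]
    exact hx
  have hlift : minpoly ℚ_[p] x ∈ lifts (algebraMap ℤ_[p] ℚ_[p]) := by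
    rw [lifts_iff_coeff_lifts]
    intro n
    exact ⟨⟨_, hcoef n⟩, rfl⟩
  obtain ⟨Q, hQ, -, hQm⟩ := lifts_and_natDegree_eq_and_monic hlift hmon
  refine ⟨Q, hQm, ?_⟩
  rw [← eval₂_map, hQ]
  exact minpoly.aeval ℚ_[p] x

theorem integral_res {p : ℕ} [Fact p.Prime] {k : Type} [Field k] [Algebra (ZMod p) k]
    {A : Subring (PadicAlgCl p)} (res : A →+* k) (hA : ∀ x, x ∈ A ↔ ‖x‖ ≤ 1)
    (hres : ∀ x : A, res x = 0 ↔ ‖(x : PadicAlgCl p)‖ < 1) (x : A) :
    IsIntegral (ZMod p) (res x) := by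
  obtain ⟨Q, hQm, hQ⟩ := exists_int (x : PadicAlgCl p) ((hA x).1 x.2)
  have hmem : ∀ a : ℤ_[p], ((algebraMap ℚ_[p] (PadicAlgCl p)).comp (algebraMap ℤ_[p] ℚ_[p])) a ∈ A := by
    intro a
    rw [hA, RingHom.comp_apply, PadicAlgCl.norm_extends]
    exact a.2
  obtain ⟨ι, hι⟩ : ∃ ι : ℤ_[p] →+* A, A.subtype.comp ι =
      (algebraMap ℚ_[p] (PadicAlgCl p)).comp (algebraMap ℤ_[p] ℚ_[p]) :=
    ⟨((algebraMap ℚ_[p] (PadicAlgCl p)).comp (algebraMap ℤ_[p] ℚ_[p])).codRestrict A hmem,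
      RingHom.ext fun _ => rfl⟩
  have hroot : eval₂ ι x Q = 0 := by
    apply Subtype.val_injective
    have h1 : A.subtype (eval₂ ι x Q) = 0 := by
      rw [hom_eval₂, hι]
      exact hQ
    exact h1
  have hρ := rho_eq p (res.comp ι) (by
    intro a ha
    rw [RingHom.comp_apply, hres]
    have h1 : ((ι a : A) : PadicAlgCl p) = (A.subtype.comp ι) a := rfl
    rw [h1, hι, RingHom.comp_apply, PadicAlgCl.norm_extends]
    exact ha)
  refine ⟨Q.map PadicInt.toZMod, hQm.map _, ?_⟩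
  rw [eval₂_map, ← hρ, ← hom_eval₂, hroot, map_zero]

theorem lift_res {p : ℕ} [Fact p.Prime] {k : Type} [Field k]
    {A : Subring (PadicAlgCl p)} (res : A →+* k)
    (hres : ∀ x : A, res x = 0 ↔ ‖(x : PadicAlgCl p)‖ < 1) (x : A) (m : ℕ)
    (h : res x ^ m = res x) : ‖(x : PadicAlgCl p) ^ m - x‖ < 1 := by
  have h3 : res (x ^ m - x) = 0 := by
    rw [map_sub, map_pow, h, sub_self]
  have h4 := (hres _).1 h3
  rw [AddSubgroupClass.coe_sub, SubmonoidClass.coe_pow] at h4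
  exact h4

theorem t_RES : S_RES := by
  intro p _ x hx
  obtain ⟨k, _, A, res, -, hchar, hA, hres⟩ := Pool.Agent.W999.HB.TP.main p
  let i : Algebra (ZMod p) k := ZMod.algebra k p
  obtain ⟨d, hd, h⟩ := fin_res p _ (integral_res res hA hres ⟨x, (hA x).2 hx⟩)
  exact ⟨d, hd, lift_res res hres ⟨x, (hA x).2 hx⟩ (p ^ d) h⟩

end Pool.Agent.K1H16.DY
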